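import Mathlib

set_option autoImplicit false

namespace Pool.Agent.Results.MP_54ed65_an.Nonneg

open Complex

noncomputable def p (β : ℝ) (z : ℂ) : ℂ := ((1 + z) / (1 - z)) ^ (β : ℂ)

noncomputable def P (α β : ℝ) (z : ℂ) : ℂ :=
  ((α * ‖z‖ ^ 2 + (1 - α) * (1 - ‖z‖ ^ 2) : ℝ) : ℂ) * p β z +
    (((1 - α) * (1 - ‖z‖ ^ 2) : ℝ) : ℂ) * (z * deriv (p β) z)

lemma pow_facts (w : ℂ) (hw : 0 < w.re) (β : ℝ) (h0 : 0 ≤ β) (h1 : β ≤ 1) :
    0 ≤ (w ^ (β : ℂ)).re ∧ 0 ≤ w.im * (w.im * (w ^ (β : ℂ)).re - w.re * (w ^ (β : ℂ)).im) := by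
  have ha : |arg w| < Real.pi / 2 := abs_arg_lt_pi_div_two_iff.mpr (Or.inl hw)
  rw [abs_lt] at ha
  have hpi := Real.pi_pos
  rw [cpow_ofReal_re, cpow_ofReal_im]
  have hr : 0 ≤ ‖w‖ ^ β := by positivity
  refine ⟨mul_nonneg hr (Real.cos_nonneg_of_mem_Icc ⟨by nlinarith, by nlinarith⟩), ?_⟩
  have e1 := norm_mul_cos_arg w
  have e2 := norm_mul_sin_arg w
  have key : 0 ≤ Real.sin (arg w) * Real.sin (arg w - arg w * β) := by
    rcases le_total 0 (arg w) with h | h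
    · exact mul_nonneg (Real.sin_nonneg_of_nonneg_of_le_pi h (by linarith))
        (Real.sin_nonneg_of_nonneg_of_le_pi (by nlinarith) (by nlinarith))
    · exact mul_nonneg_of_nonpos_of_nonpos (Real.sin_nonpos_of_nonpos_of_neg_pi_le h (by linarith))
        (Real.sin_nonpos_of_nonpos_of_neg_pi_le (by nlinarith) (by nlinarith))
  rw [Real.sin_sub] at key
  generalize ‖w‖ ^ β = R at *
  rw [← e1, ← e2]
  have := mul_nonneg (mul_nonneg hr (sq_nonneg ‖w‖)) key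
  exact le_of_le_of_eq this (by ring)

theorem result (α β : ℝ) (hα0 : 0 < α) (hα1 : α < 2 / 3) (hβ : 0 < β)
    (h : 0 ≤ α - 2 * (1 - α) * β) (z : ℂ) (hz : ‖z‖ < 1) : 0 ≤ (P α β z).re := by
  have hβ1 : β ≤ 1 := by nlinarith
  have hr : ‖z‖ ^ 2 = z.re ^ 2 + z.im ^ 2 := by rw [Complex.sq_norm, normSq_apply]; ring
  have hs : 0 < 1 - ‖z‖ ^ 2 := by nlinarith [norm_nonneg z]
  have hm : (1 : ℂ) - z ≠ 0 := by
    intro h; rw [sub_eq_zero] at h; rw [← h] at hz; simp at hz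
  have hp : (1 : ℂ) + z ≠ 0 := by
    intro h; rw [add_eq_zero_iff_neg_eq] at h; rw [← h] at hz; simp at hz
  have hD : 0 < normSq (1 - z) := normSq_pos.mpr hm
  have hre : ((1 + z) / (1 - z)).re = (1 - ‖z‖ ^ 2) / normSq (1 - z) := by
    rw [div_re, hr]; simp; ring
  have him : ((1 + z) / (1 - z)).im = 2 * z.im / normSq (1 - z) := by
    rw [div_im]; simp; ring
  have hw : 0 < ((1 + z) / (1 - z)).re := by rw [hre]; positivity
  have hd : HasDerivAt (fun z : ℂ => (1 + z) / (1 - z)) (2 / (1 - z) ^ 2) z := by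
    have := ((hasDerivAt_id z).const_add 1).div ((hasDerivAt_id z).const_sub 1) hm
    refine HasDerivAt.congr_deriv this ?_
    simp only [id]; ring
  have hder : z * deriv (p β) z = 2 * β * (z / (1 - z ^ 2)) * p β z := by
    have := (hd.cpow_const (c := (β : ℂ)) (Or.inl hw)).deriv
    unfold p
    rw [this, cpow_sub _ _ (div_ne_zero hp hm), cpow_one,
      show (1 : ℂ) - z ^ 2 = (1 - z) * (1 + z) by ring]
    field_simp
  obtain ⟨hA, hB⟩ := pow_facts _ hw β hβ.le hβ1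
  rw [hre, him] at hB
  change 0 ≤ (p β z).re at hA
  change 0 ≤ _ * (_ * (p β z).re - _ * (p β z).im) at hB
  have hN : 0 < (1 - ‖z‖ ^ 2) ^ 2 + 4 * z.im ^ 2 := by positivity
  have hq : z / (1 - z ^ 2) = ⟨z.re * (1 - ‖z‖ ^ 2) / ((1 - ‖z‖ ^ 2) ^ 2 + 4 * z.im ^ 2),
      z.im * (1 + ‖z‖ ^ 2) / ((1 - ‖z‖ ^ 2) ^ 2 + 4 * z.im ^ 2)⟩ := by
    have e : normSq (1 - z ^ 2) = (1 - ‖z‖ ^ 2) ^ 2 + 4 * z.im ^ 2 := by
      rw [hr, normSq_apply, sq z]; simp; ring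
    apply Complex.ext
    · rw [div_re, e, hr, sq z]; simp; ring
    · rw [div_im, e, hr, sq z]; simp; ring
  unfold P
  rw [hder, hq]
  simp only [add_re, mul_re, mul_im, ofReal_re, ofReal_im, re_ofNat, im_ofNat]
  generalize (p β z).re = A at *
  generalize (p β z).im = B at *
  generalize normSq (1 - z) = D at *
  have hB' : 0 ≤ z.im * (2 * z.im * A - (1 - ‖z‖ ^ 2) * B) := by
    have := mul_nonneg (sq_nonneg D) hB
    have e : D ^ 2 * (2 * z.im / D * (2 * z.im / D * A - (1 - ‖z‖ ^ 2) / D * B)) =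
        2 * (z.im * (2 * z.im * A - (1 - ‖z‖ ^ 2) * B)) := by field_simp
    linarith
  generalize ‖z‖ ^ 2 = R at *
  generalize z.re = a at *
  generalize z.im = b at *
  have hR : 0 ≤ R := by rw [hr]; positivity
  have hE : 0 ≤ 1 + R + 2 * a := by rw [hr]; nlinarith [sq_nonneg (1 + a), sq_nonneg b]
  have hk : 0 ≤ (1 - α) * β := by nlinarith
  set N := (1 - R) ^ 2 + 4 * b ^ 2 with hNdef
  have main : 0 ≤ ((α - 2 * (1 - α) * β) * R * A + (1 - α) * (1 - β) * (1 - R) * A) +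
      (1 - α) * β * ((1 - R) ^ 2 * (1 + R + 2 * a) * A +
        2 * (1 + R) * (b * (2 * b * A - (1 - R) * B))) / N := by
    have h1 : 0 ≤ 1 - α := by linarith
    have h2 : 0 ≤ 1 - β := by linarith
    positivity
  refine le_of_le_of_eq main ?_
  field_simp
  rw [hNdef]; ring

end Pool.Agent.Results.MP_54ed65_an.Nonneg
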